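import Pool.Agent.Helper74.CA.Stmts

set_option autoImplicit false

/-! # Reduction to the group generated by the elements `x⁻¹ a(x)` -/

namespace Pool.Agent.Helper33.CA

open Subgroup Pool.Agent.Helper74.CA

open scoped commutatorElement

/-- restriction of an automorphism of a finite group to a stable subgroup -/
lemma red_res {P : Type} [Group P] [Finite P] (f : MulAut P) (N : Subgroup P)
    (h : ∀ x ∈ N, f x ∈ N) : ∃ b : MulAut N, ∀ x : N, ((b x : N) : P) = f x := by
  let F : N →* N := (f.toMonoidHom.comp N.subtype).codRestrict N (fun x => h x x.2)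
  have hF : ∀ x : N, ((F x : N) : P) = f x := fun x => rfl
  have hinj : Function.Injective F := by
    intro x y hxy
    apply Subtype.ext
    apply f.injective
    rw [← hF, ← hF, hxy]
  exact ⟨MulEquiv.ofBijective F (Finite.injective_iff_bijective.1 hinj), hF⟩

lemma red_res_pow {P : Type} [Group P] (f : MulAut P) (N : Subgroup P)
    (b : MulAut N) (hb : ∀ x : N, ((b x : N) : P) = f x) (i : ℕ) (x : N) :
    (((b ^ i) x : N) : P) = (f ^ i) (x : P) := by
  induction i with
  | zero => rfl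
  | succ i ih =>
    rw [pow_succ', pow_succ', MulAut.mul_apply, MulAut.mul_apply, hb, ih]

/-- subgroups stable under an automorphism of a finite group are stable under the inverse -/
lemma red_inv {P : Type} [Group P] [Finite P] (f : MulAut P) (N : Subgroup P)
    (h : ∀ x ∈ N, f x ∈ N) (x : P) (hx : f x ∈ N) : x ∈ N := by
  obtain ⟨b, hb⟩ := red_res f N h
  obtain ⟨y, hy⟩ := b.surjective ⟨f x, hx⟩
  have h1 : f (y : P) = f x := by rw [← hb, hy]
  rw [← f.injective h1]
  exact y.2

theorem st_RED (hCOS : ST_COS) (hCOMM : ST_COMM) (hCUB : ST_CUB) (hEBL : ST_EBL) : ST_RED := by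
  intro P _ _ a n hP hKB g
  have hn0 : n ≠ 0 := by
    rintro rfl
    exact hKB.n3 (dvd_zero 3)
  -- the group `H`
  let H : Subgroup P := closure {y | ∃ i : ℕ, y = (a ^ i) g}
  have hgH : g ∈ H := Subgroup.subset_closure ⟨0, rfl⟩
  have haH : ∀ x ∈ H, a x ∈ H := by
    intro x hx
    induction hx using Subgroup.closure_induction with
    | mem x hx =>
      obtain ⟨i, rfl⟩ := hx
      exact Subgroup.subset_closure ⟨i + 1, by rw [pow_succ', MulAut.mul_apply]⟩
    | one => rw [map_one]; exact one_mem _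
    | mul x y _ _ h1 h2 => rw [map_mul]; exact mul_mem h1 h2
    | inv x _ h1 => rw [map_inv]; exact inv_mem h1
  -- the group `K`
  let K : Subgroup P := closure {y | ∃ x ∈ H, y = x⁻¹ * a x}
  have hgen : ∀ x ∈ H, x⁻¹ * a x ∈ K := fun x hx => Subgroup.subset_closure ⟨x, hx, rfl⟩
  have hKH : K ≤ H := by
    refine (closure_le _).2 ?_
    rintro y ⟨x, hx, rfl⟩
    exact mul_mem (inv_mem hx) (haH x hx)
  have haK : ∀ x ∈ K, a x ∈ K := by
    intro x hx
    induction hx using Subgroup.closure_induction with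
    | mem x hx =>
      obtain ⟨y, hy, rfl⟩ := hx
      rw [map_mul, map_inv]
      exact hgen _ (haH y hy)
    | one => rw [map_one]; exact one_mem _
    | mul x y _ _ h1 h2 => rw [map_mul]; exact mul_mem h1 h2
    | inv x _ h1 => rw [map_inv]; exact inv_mem h1
  have hKn : ∀ h ∈ H, ∀ x ∈ K, h * x * h⁻¹ ∈ K := by
    intro h hh x hx
    induction hx using Subgroup.closure_induction with
    | mem x hx =>
      obtain ⟨y, hy, rfl⟩ := hx
      have e1 : h * (y⁻¹ * a y) * h⁻¹ =
          ((y * h⁻¹)⁻¹ * a (y * h⁻¹)) * ((h⁻¹)⁻¹ * a h⁻¹)⁻¹ := by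
        rw [map_mul, map_inv]
        group
      rw [e1]
      exact mul_mem (hgen _ (mul_mem hy (inv_mem hh))) (inv_mem (hgen _ (inv_mem hh)))
    | one =>
      have : h * 1 * h⁻¹ = 1 := by group
      rw [this]
      exact one_mem _
    | mul x y _ _ h1 h2 =>
      have : h * (x * y) * h⁻¹ = (h * x * h⁻¹) * (h * y * h⁻¹) := by group
      rw [this]
      exact mul_mem h1 h2
    | inv x _ h1 =>
      have : h * x⁻¹ * h⁻¹ = (h * x * h⁻¹)⁻¹ := by group
      rw [this]
      exact inv_mem h1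
  have hcopK : n.Coprime (Nat.card K) :=
    Nat.Coprime.coprime_dvd_right (Subgroup.card_subgroup_dvd_card K) hKB.cop
  -- elements of `H` are products of fixed elements and elements of `K`
  have hdec : ∀ x ∈ H, ∃ m ∈ K, a (x * m) = x * m := fun x hx =>
    hCOS P a n K hKB.an hcopK haK x (hgen x hx)
  obtain ⟨b, hb⟩ := red_res a K haK
  have hbpow : ∀ (i : ℕ) (x : K), (((b ^ i) x : K) : P) = (a ^ i) (x : P) :=
    red_res_pow a K b hb
  -- the base data for `K`
  have hKBK : KB K b n := by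
    refine ⟨?_, hKB.n3, hcopK, ?_, ?_⟩
    · ext x
      rw [hbpow, hKB.an]
      rfl
    · intro x
      apply Subtype.ext
      have := hKB.cs (x : P)
      push_cast
      rw [hb]
      exact this
    · intro x hx
      apply Subtype.ext
      have h1 : a (x : P) = x := by rw [← hb, hx]
      have := hKB.cc (x : P) h1
      push_cast
      exact this
  have hGen : Gen K b := by
    have key : ∀ (x : P) (hx : x ∈ K), (⟨x, hx⟩ : K) ∈ closure {y | ∃ x, y = x⁻¹ * b x} := by
     intro x hx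
     induction hx using Subgroup.closure_induction with
     | mem x hx =>
       obtain ⟨y, hy, rfl⟩ := hx
       obtain ⟨m, hm, hm2⟩ := hdec y hy
       apply Subgroup.subset_closure
       refine ⟨⟨m⁻¹, inv_mem hm⟩, ?_⟩
       apply Subtype.ext
       push_cast
       rw [hb]
       show y⁻¹ * a y = (m⁻¹)⁻¹ * a m⁻¹
       rw [map_mul] at hm2
       have h1 : a y = y * m * (a m)⁻¹ := by rw [← hm2]; group
       rw [h1, map_inv]
       group
     | one => exact one_mem _
     | mul x y hx hy h1 h2 => exact mul_mem h1 h2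
     | inv x hx h1 => exact inv_mem h1
    unfold Gen
    rw [eq_top_iff]
    exact fun x _ => key x.1 x.2
  -- the cube of `g`
  have hg3 : g ^ 3 ∈ K := by
    obtain ⟨m, hm, hm2⟩ := hdec g hgH
    have hcH : g * m ∈ H := mul_mem hgH (hKH hm)
    have hc3 := hKB.cc _ hm2
    have e1 : g ^ 3 = ((g * m) * m⁻¹ * (g * m)⁻¹) * ((g * m) ^ 2 * m⁻¹ * ((g * m) ^ 2)⁻¹) *
        ((g * m) ^ 3 * m⁻¹) := by
      simp only [pow_succ, pow_zero, one_mul]
      group
    rw [e1, hc3, one_mul]
    exact mul_mem (mul_mem (hKn _ hcH _ (inv_mem hm))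
      (hKn _ (pow_mem hcH 2) _ (inv_mem hm))) (inv_mem hm)
  -- conjugation by `g`
  obtain ⟨t, ht⟩ := red_res (MulAut.conj g) K (by
    intro x hx
    rw [MulAut.conj_apply]
    exact hKn g hgH x hx)
  have ht' : ∀ x : K, ((t x : K) : P) = g * x * g⁻¹ := by
    intro x
    rw [ht, MulAut.conj_apply]
  obtain ⟨c1, c2, c3, c4, c5, c6, c7, _⟩ := hCOMM K
  have hcomm : ∀ x y : K, ⁅x, y⁆ ∈ gm K 2 := by
    intro x y
    have h1 := c1 1 1
    apply h1
    rw [c4]
    exact commutator_mem_commutator (mem_top x) (mem_top y)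
  let w : K := ⟨g⁻¹ * a g, hgen g hgH⟩
  have hcube : ∀ x : K, x ^ 3 ∈ gm K 2 := by
    intro x
    have h1 := hCUB K b n hKBK 1 x (by rw [c4]; exact mem_top x)
    exact c5 2 (3 * 1) (by norm_num) h1
  have hta : ∀ x : K, t (b x) * (b (t x))⁻¹ ∈ gm K 2 := by
    intro x
    have h1 : t (b x) * (b (t x))⁻¹ = t ⁅b x, w⁆ := by
      apply Subtype.ext
      rw [commutatorElement_def]
      simp only [Subgroup.coe_mul, Subgroup.coe_inv, map_mul, map_inv, ht', hb]
      show g * a x * g⁻¹ * (a g * a x * (a g)⁻¹)⁻¹ = g * a x * g⁻¹ * (g * (g⁻¹ * a g) * g⁻¹) *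
        (g * a x * g⁻¹)⁻¹ * (g * (g⁻¹ * a g) * g⁻¹)⁻¹
      group
    rw [h1]
    exact c7 t.toMonoidHom 2 _ (hcomm _ _)
  have httt : ∀ x : K, t (t (t x)) * x⁻¹ ∈ gm K 2 := by
    intro x
    have h1 : t (t (t x)) * x⁻¹ = ⁅(⟨g ^ 3, hg3⟩ : K), x⁆ := by
      apply Subtype.ext
      rw [commutatorElement_def]
      simp only [Subgroup.coe_mul, Subgroup.coe_inv, ht', pow_succ, pow_zero, one_mul]
      group
    rw [h1]
    exact hcomm _ _
  -- generation
  let M : Subgroup K := closure {y | ∃ i j : ℕ, y = (t ^ j) ((b ^ i) w)} ⊔ gm K 2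
  have hM2 : gm K 2 ≤ M := le_sup_right
  have hMt : ∀ x ∈ M, t x ∈ M := by
    have h1 : M ≤ M.comap t.toMonoidHom := by
      refine sup_le ((closure_le _).2 ?_) ?_
      · rintro y ⟨i, j, rfl⟩
        show t ((t ^ j) ((b ^ i) w)) ∈ M
        apply (le_sup_left : _ ≤ M)
        apply Subgroup.subset_closure
        exact ⟨i, j + 1, by rw [pow_succ', MulAut.mul_apply]⟩
      · intro x hx
        exact hM2 (c7 t.toMonoidHom 2 x hx)
    exact fun x hx => h1 hx
  have hMK : ∀ u : K, ∀ x ∈ M, u * x * u⁻¹ ∈ M := by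
    intro u x hx
    have h1 : u * x * u⁻¹ = ⁅u, x⁆ * x := by
      rw [commutatorElement_def]
      group
    rw [h1]
    exact mul_mem (hM2 (hcomm u x)) hx
  let M' : Subgroup P := M.map K.subtype
  have hmem : ∀ x : K, (x : P) ∈ M' ↔ x ∈ M := by
    intro x
    constructor
    · rintro ⟨y, hy, hyx⟩
      have : y = x := Subtype.ext hyx
      rw [← this]
      exact hy
    · intro hx
      exact ⟨x, hx, rfl⟩
  have hM'K : M' ≤ K := by
    rintro _ ⟨y, _, rfl⟩
    exact y.2
  have hgN : g ∈ normalizer (M' : Set P) := by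
    rw [mem_normalizer_iff]
    intro x
    constructor
    · intro hx
      have hxK := hM'K hx
      have h1 := hMt ⟨x, hxK⟩ ((hmem ⟨x, hxK⟩).1 hx)
      have h2 := (hmem _).2 h1
      rw [ht'] at h2
      exact h2
    · intro hx
      have h1 : ∀ y ∈ M', MulAut.conj g y ∈ M' := by
        intro y hy
        have hyK := hM'K hy
        have h1 := hMt ⟨y, hyK⟩ ((hmem ⟨y, hyK⟩).1 hy)
        have h2 := (hmem _).2 h1
        rw [ht'] at h2
        rw [MulAut.conj_apply]
        exact h2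
      exact red_inv (MulAut.conj g) M' h1 x (by rw [MulAut.conj_apply]; exact hx)
  have hKN : ∀ u ∈ K, u ∈ normalizer (M' : Set P) := by
    intro u hu
    rw [mem_normalizer_iff]
    intro x
    constructor
    · intro hx
      have hxK := hM'K hx
      have h1 := hMK ⟨u, hu⟩ ⟨x, hxK⟩ ((hmem ⟨x, hxK⟩).1 hx)
      exact (hmem _).2 h1
    · intro hx
      have hxK := hM'K hx
      have h1 := hMK ⟨u, hu⟩⁻¹ ⟨_, hxK⟩ ((hmem ⟨_, hxK⟩).1 hx)
      have h2 := (hmem _).2 h1
      have h3 : ((⟨u, hu⟩⁻¹ * ⟨u * x * u⁻¹, hxK⟩ * (⟨u, hu⟩⁻¹)⁻¹ : K) : P) = x := by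
        push_cast
        group
      rw [h3] at h2
      exact h2
  have haig : ∀ i : ℕ, g⁻¹ * (a ^ i) g ∈ K := by
    intro i
    induction i with
    | zero =>
      have : g⁻¹ * (a ^ 0) g = 1 := by
        rw [pow_zero]
        exact inv_mul_cancel g
      rw [this]
      exact one_mem _
    | succ i ih =>
      have h1 : g⁻¹ * (a ^ (i + 1)) g = (g⁻¹ * a g) * a (g⁻¹ * (a ^ i) g) := by
        rw [pow_succ', MulAut.mul_apply, map_mul, map_inv]
        group
      rw [h1]
      exact mul_mem (hgen g hgH) (haK _ ih)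
  have hHN : H ≤ normalizer (M' : Set P) := by
    refine (closure_le _).2 ?_
    rintro y ⟨i, rfl⟩
    have h1 : (a ^ i) g = g * (g⁻¹ * (a ^ i) g) := by group
    rw [SetLike.mem_coe, h1]
    exact mul_mem hgN (hKN _ (haig i))
  have hHM : ∀ x ∈ H, x⁻¹ * a x ∈ M' := by
    intro x hx
    induction hx using Subgroup.closure_induction with
    | mem x hx =>
      obtain ⟨i, rfl⟩ := hx
      have h1 : ((a ^ i) g)⁻¹ * a ((a ^ i) g) = (((b ^ i) w : K) : P) := by
        rw [hbpow]
        show _ = (a ^ i) (g⁻¹ * a g)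
        rw [map_mul, map_inv, ← MulAut.mul_apply, ← MulAut.mul_apply, ← pow_succ', ← pow_succ]
      rw [h1, hmem]
      apply (le_sup_left : _ ≤ M)
      apply Subgroup.subset_closure
      exact ⟨i, 0, by rw [pow_zero]; rfl⟩
    | one =>
      have : (1 : P)⁻¹ * a 1 = 1 := by rw [map_one]; group
      rw [this]
      exact one_mem _
    | mul x y _ hy h1 h2 =>
      have h3 : (x * y)⁻¹ * a (x * y) = (y⁻¹ * (x⁻¹ * a x) * (y⁻¹)⁻¹) * (y⁻¹ * a y) := by
        rw [map_mul]
        group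
      rw [h3]
      exact mul_mem ((mem_normalizer_iff.1 (inv_mem (hHN hy)) _).1 h1) h2
    | inv x hx h1 =>
      have h3 : (x⁻¹)⁻¹ * a x⁻¹ = (x * (x⁻¹ * a x) * x⁻¹)⁻¹ := by
        rw [map_inv]
        group
      rw [h3]
      exact inv_mem ((mem_normalizer_iff.1 (hHN hx) _).1 h1)
  have hKM : K ≤ M' := by
    refine (closure_le _).2 ?_
    rintro y ⟨x, hx, rfl⟩
    exact hHM x hx
  have hMtop : closure {y | ∃ i j : ℕ, y = (t ^ j) ((b ^ i) w)} ⊔ gm K 2 = ⊤ := by
    rw [eq_top_iff]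
    intro x _
    exact (hmem x).1 (hKM x.2)
  obtain ⟨e, he⟩ := hEBL K b t n w hKBK.an hKBK.n3 hcube hta httt hMtop
  have : Fact (Nat.Prime 3) := ⟨Nat.prime_three⟩
  exact ⟨K, inferInstance, inferInstance, b, e, K.subtype, (hP.to_subgroup K).isNilpotent, hKBK,
    hGen, he, K.subtype_injective, ⟨g ^ 3, hg3⟩, rfl⟩

end Pool.Agent.Helper33.CA
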